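import Pool.Agent.helper9.HX.Spec

/-!
# Row hx:CA: the case with fewer pairs than singletons
-/

set_option autoImplicit false

open scoped Classical

namespace Pool.Agent.helper9.HX

open Finset
open Pool.Agent.helper65.HC (V IsEig IsTop lam)
open Pool.Agent.helper9.HQ (Fam Dn E N Le hi c)
open Pool.Agent.helper9

theorem CA (hHB : HB_stmt) (hCNA : CNA_stmt) (hEQ1 : EQ1_stmt) (hP2 : P2_stmt) (hBASE : BASE_stmt)
    (hDOMA : DOMA_stmt) (hCAN : CAN_stmt) : CA_stmt := by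
  obtain ⟨m₁, h1⟩ := hP2
  obtain ⟨m₂, h2⟩ := hCAN 7500 (by norm_num)
  refine ⟨max 1 (max m₁ m₂), fun m hm d U l f hst he => ?_⟩
  have hm1 : 1 ≤ m := le_trans (le_max_left _ _) hm
  have hm₁ : m₁ ≤ m := le_trans (le_trans (le_max_left _ _) (le_max_right _ _)) hm
  have hm₂ : m₂ ≤ m := le_trans (le_trans (le_max_right _ _) (le_max_right _ _)) hm
  have hm0 : (0 : ℝ) < m := by exact_mod_cast hm1
  obtain ⟨hc1, hc2⟩ := hCNA d U hst.pf.em
  obtain ⟨hl0, -, -, -, hl1, hl2⟩ := hEQ1 d U l f hst.pf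
  obtain ⟨hd1, hd2⟩ := hDOMA d U f hst.pf.dn hst.pf.nn
  have hb := hBASE d U l f hst.pf
  have hs0 : 0 ≤ s2 U f := Finset.sum_nonneg fun x _ => hst.pf.nn x
  have hu0 : 0 ≤ u2 U f := Finset.sum_nonneg fun x _ => sq_nonneg _
  have hN0 : 0 ≤ N (hi U) f := Finset.sum_nonneg fun x _ => sq_nonneg _
  set φ : ℝ := 32 * (s2 U f + 1) / m with hφ
  have hφ0 : 0 ≤ φ := by positivity
  have hmφ : m * φ = 32 * (s2 U f + 1) := by
    rw [hφ]
    field_simp
  have hb2 := hHB d m U l f φ hst hm1 (fun x hx hx2 => by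
    rw [hφ, le_div_iff₀ hm0]
    have := h1 m hm₁ d U l f hst x hx hx2
    linarith) hφ0
  rw [hst.card] at hc1 hl2
  refine h2 m (nu U) (ee U) (hi U).card d (l ^ 2) (N (hi U) f) (s2 U f) (u2 U f) φ hm₂ hc1 he hc2 hs0 hu0 hN0 hφ0
    hl1 hd2 hl2 hst.half ?_ hb2 ?_
  · linarith
  · rw [hmφ]
    linarith

end Pool.Agent.helper9.HX
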