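import Pool.Agent.helper9.HX.Spec

/-!
# Row hx:UPP: reduction to a down-set with a monotone Perron vector
-/

set_option autoImplicit false

open scoped Classical

namespace Pool.Agent.helper9.HX

open Finset
open Pool.Agent.helper65.HC (V IsEig IsTop lam)
open Pool.Agent.helper9.HQ (Fam Dn E N Le hi c)
open Pool.Agent.helper9

theorem UPP (hDC : HQ.DC_stmt) (hMON : MON_stmt) : UPP_stmt := by
  intro d U t ht
  obtain ⟨A, hA, hcard, f₀, hN, hE⟩ := hDC d U t ht
  have hne : A.Nonempty := by
    rw [Finset.nonempty_iff_ne_empty]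
    intro h0
    rw [h0] at hN
    unfold HQ.N at hN
    simp at hN
  obtain ⟨l, f, hf⟩ := hMON d A hA hne
  refine ⟨A, l, f, hcard, hf, hE.trans ?_⟩
  have h1 := hf.le f₀
  rw [hN, mul_one] at h1
  exact h1

end Pool.Agent.helper9.HX
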